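import Pool.Agent.Lib.H86N.Final2

/-!
# All smooth admissible second coefficients at rank-one singular points

For `f` smooth near the origin of the plane let `R_f = (f_x (x - f_x) - f) / f_y` where `f_y ≠ 0`.
We describe all `f` with `f_y(0,0) = 0`, `f_y` not identically zero near the origin, for which `R_f`
extends smoothly to a neighbourhood of the origin. They are exactly the following functions.

* `f(0,0) ≠ 0`: `f = - φ(Y) (x + φ(Y))`, where `Y = Y(x,y)` is smooth with `Y(0,0) = 0`,
  `Y_y(0,0) ≠ 0` and `φ` is an arbitrary smooth function of one variable with `φ(0) ≠ 0`,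
  `φ'(0) = 0`, not constant near `0`.
* `f(0,0) = 0`, `f_y` not flat at the origin: `f = N(x, Y(x,y))` with `Y` as before and `N` in the
  explicit list `NormalForm`.
* `f(0,0) = 0`, `f_y` flat at the origin: in parametric form either
  `x = 2 P - W_P(P,y)`, `f = x²/4 + W - W_P²/4` with `W(P,y)` flat and `W / W_y` smooth, or
  `x = q_p(p,y) - 2 p`, `f = q_p²/4 - q` with `q(p,y)` flat and `(p q_p - q)/q_y` smooth
  (linear equations `W = G W_y`, `p q_p - G q_y = q` with an arbitrary smooth coefficient `G`).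
-/

open Filter Topology H86N

namespace Pool.Agent.Results.MP_41f0f1_an.AllSmooth

/-- Description of all smooth admissible `f`. -/
theorem result (f : ℝ × ℝ → ℝ) (hf : SmoothNear f) :
    (dy f 0 = 0 ∧ (¬ ∀ᶠ z in 𝓝 (0 : ℝ × ℝ), dy f z = 0) ∧ RExtends f) ↔
      ((f 0 ≠ 0 ∧ TypeI f) ∨ (f 0 = 0 ∧ (¬ Flat (dy f)) ∧ HasNormalForm f) ∨
        (f 0 = 0 ∧ Flat (dy f) ∧ (TypeW f ∨ TypeQ f))) := by
  constructor
  · rintro ⟨h1, h2, h3⟩
    exact trichotomy hf h1 h2 h3
  · rintro (⟨-, h⟩ | ⟨-, -, h⟩ | ⟨-, -, h⟩)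
    · exact (classification2 hf).2 (Or.inl h)
    · exact (classification2 hf).2 (Or.inr (Or.inl h))
    · exact (classification2 hf).2 (Or.inr (Or.inr h))

end Pool.Agent.Results.MP_41f0f1_an.AllSmooth
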