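import Pool.Agent.Lib.H86N.Final
import Pool.Agent.Lib.H86N.Analytic

/-!
# Admissible second coefficients at rank-one singular points

For `f` smooth near the origin of the plane let `R_f = (f_x (x - f_x) - f) / f_y` where `f_y ≠ 0`.
We determine all `f` with `f_y(0,0) = 0`, `f_y` not flat at the origin (not vanishing to infinite
order), for which `R_f` extends smoothly to a neighbourhood of the origin: they are exactly the
functions `N(x, Y(x,y))`, where `Y` is smooth, `Y(0,0) = 0`, `Y_y(0,0) ≠ 0`, and `N(x,y)` is one of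

* `l x - l² ± y^n` (`n ≥ 2`), `x²/4 ± y^n` (`n ≥ 2`), `(x/2 ± y^m)²` (`m ≥ 2`), `- y^m (y^m ± x)` (`m ≥ 2`),
* `x^p (c + y)` (`p ≥ 2`), `x²/4 + x^p (c + y)` (`p ≥ 3`), `± x^p y^n` (`p, n ≥ 2`),
  `x²/4 ± x^p y^n` (`p, n ≥ 2`).

In particular this describes all real analytic `f`.
-/

open Filter Topology H86N

namespace Pool.Agent.Results.MP_41f0f1_an.Classification

/-- Classification of the admissible `f`: (1) all smooth `f` with `f_y` not flat at the origin,
(2) all real analytic `f` with `f_y` not identically zero. -/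
theorem result :
    (∀ f : ℝ × ℝ → ℝ, SmoothNear f →
      ((dy f 0 = 0 ∧ ¬ Flat (dy f) ∧ RExtends f) ↔ HasNormalForm f)) ∧
    (∀ f : ℝ × ℝ → ℝ, AnalyticAt ℝ f 0 →
      ((dy f 0 = 0 ∧ (¬ ∀ᶠ z in 𝓝 (0 : ℝ × ℝ), dy f z = 0) ∧ RExtends f) ↔
        HasNormalForm f)) := by
  refine ⟨fun f hf => classification hf, fun f hf => ?_⟩
  rw [← classification (analytic_smooth hf)]
  constructor
  · rintro ⟨h1, h2, h3⟩
    exact ⟨h1, fun h => h2 (analytic_flat (analytic_dy hf) h), h3⟩
  · rintro ⟨h1, h2, h3⟩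
    refine ⟨h1, fun h => h2 ?_, h3⟩
    intro n
    refine Asymptotics.IsBigO.congr' (Asymptotics.isBigO_zero _ _) ?_ EventuallyEq.rfl
    filter_upwards [h] with z hz
    exact hz.symm

end Pool.Agent.Results.MP_41f0f1_an.Classification
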